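import Mathlib

set_option autoImplicit false

/-!
# The approximation ratio of the `k`-lookahead auction does not tend to `1`

We show `ρ_k ≤ 4/5` for every `k ≥ 2`.
-/

namespace Pool.Agent.Results.MP_0f9109_lc.LookaheadGap

open Finset

/-- A finitely supported joint distribution of the valuations of `n` bidders: finitely many
valuation vectors with positive entries, and their probabilities. -/
structure FinDist (n : ℕ) where
  /-- a finite set of valuation vectors carrying the distribution -/
  pts : Finset (Fin n → ℝ)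
  /-- the probability of each vector -/
  prob : (Fin n → ℝ) → ℝ
  prob_nonneg : ∀ v, 0 ≤ prob v
  prob_sum : ∑ v ∈ pts, prob v = 1
  val_pos : ∀ v ∈ pts, ∀ i, 0 < v i

/-- `(x, p)` (allocation probabilities and expected payments as functions of the bid vector) is a
truthful-in-expectation and individually rational mechanism serving only the bidders in `K`, the
bids of the bidders outside `K` being fixed to those of `u`.  For `K = univ` this is an
unrestricted mechanism for all bidders. -/
structure IsMechanism {n : ℕ} (K : Finset (Fin n)) (u : Fin n → ℝ)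
    (x p : (Fin n → ℝ) → Fin n → ℝ) : Prop where
  nonneg : ∀ v : Fin n → ℝ, (∀ i, 0 < v i) → (∀ j ∉ K, v j = u j) → ∀ i, 0 ≤ x v i
  sum_le : ∀ v : Fin n → ℝ, (∀ i, 0 < v i) → (∀ j ∉ K, v j = u j) → ∑ i, x v i ≤ 1
  outside : ∀ v : Fin n → ℝ, (∀ i, 0 < v i) → (∀ j ∉ K, v j = u j) →
    ∀ j ∉ K, x v j = 0 ∧ p v j = 0
  individually_rational : ∀ v : Fin n → ℝ, (∀ i, 0 < v i) → (∀ j ∉ K, v j = u j) →
    ∀ i ∈ K, 0 ≤ x v i * v i - p v i
  truthful : ∀ v : Fin n → ℝ, (∀ i, 0 < v i) → (∀ j ∉ K, v j = u j) →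
    ∀ i ∈ K, ∀ b : ℝ, 0 < b →
      x (Function.update v i b) i * v i - p (Function.update v i b) i ≤ x v i * v i - p v i

/-- `OPT(D)`: the supremum of the expected revenue of truthful-in-expectation, individually
rational mechanisms for all bidders. -/
noncomputable def OPT {n : ℕ} (D : FinDist n) : ℝ :=
  sSup {r | ∃ x p : (Fin n → ℝ) → Fin n → ℝ, IsMechanism univ 0 x p ∧
    r = ∑ v ∈ D.pts, D.prob v * ∑ i, p v i}

/-- The `k` highest bidders at `v`, ties broken by index: fewer than `k` bidders come before `i`. -/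
noncomputable def topK {n : ℕ} (k : ℕ) (v : Fin n → ℝ) : Finset (Fin n) :=
  univ.filter fun i => (univ.filter fun j => v i < v j ∨ (v j = v i ∧ j < i)).card < k

/-- The valuation vectors of `D` on which the lookahead mechanism conditions when the vector is
`v`: with `K = topK k v`, the bidders outside `K` have the same values as in `v`, and every bidder
in `K` has value at least `v* = max_{j ∉ K} v_j`. -/
noncomputable def condPts {n : ℕ} (k : ℕ) (D : FinDist n) (v : Fin n → ℝ) :
    Finset (Fin n → ℝ) :=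
  D.pts.filter fun v' => (∀ j ∉ topK k v, v' j = v j) ∧
    ∀ i ∈ topK k v, ∀ j ∉ topK k v, v j ≤ v' i

/-- The optimal expected revenue from the bidders in `K = topK k v` for the conditional
distribution `D_K`. -/
noncomputable def condOPT {n : ℕ} (k : ℕ) (D : FinDist n) (v : Fin n → ℝ) : ℝ :=
  sSup {r | ∃ x p : (Fin n → ℝ) → Fin n → ℝ, IsMechanism (topK k v) v x p ∧
    r = (∑ v' ∈ condPts k D v, D.prob v' * ∑ i, p v' i) / ∑ v' ∈ condPts k D v, D.prob v'}

/-- `rev_k(D)`: the expected revenue of the `k`-lookahead mechanism under `D`, i.e. the expectation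
over `v ∼ D` of the optimal expected revenue for the conditional distribution `D_K`. -/
noncomputable def rev {n : ℕ} (k : ℕ) (D : FinDist n) : ℝ :=
  ∑ v ∈ D.pts, D.prob v * condOPT k D v

/-- No bidder outside the top `k` ties with a bidder in the top `k`.  (For such distributions the
sets `condPts` partition the support, and `rev` is unambiguously the expected revenue.) -/
def NoTies {n : ℕ} (k : ℕ) (D : FinDist n) : Prop :=
  ∀ v ∈ D.pts, ∀ i ∈ topK k v, ∀ j ∉ topK k v, v j < v i

/-- The approximation ratio `ρ_k` of the `k`-lookahead mechanism, the infimum of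
`rev_k(D) / OPT(D)`; it is taken over the distributions without ties between the top `k` bidders
and the others (admitting more distributions can only decrease an infimum, so upper bounds on this
quantity are upper bounds on `ρ_k` under every convention about ties). -/
noncomputable def rho (k : ℕ) : ℝ :=
  sInf {r | ∃ n : ℕ, ∃ D : FinDist n, NoTies k D ∧ 0 < OPT D ∧ r = rev k D / OPT D}

/-! ## General facts -/

section General

variable {n : ℕ}

/-- The mechanism that never sells. -/
theorem zero_isMechanism (K : Finset (Fin n)) (u : Fin n → ℝ) :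
    IsMechanism K u (fun _ _ => 0) (fun _ _ => 0) where
  nonneg := fun _ _ _ _ => le_refl _
  sum_le := fun _ _ _ => by simp
  outside := fun _ _ _ _ _ => ⟨rfl, rfl⟩
  individually_rational := fun _ _ _ _ _ => by simp
  truthful := fun _ _ _ _ _ _ _ => by simp

theorem pay_le {K : Finset (Fin n)} {u : Fin n → ℝ} {x p : (Fin n → ℝ) → Fin n → ℝ}
    (h : IsMechanism K u x p) {v : Fin n → ℝ} (hv : ∀ i, 0 < v i) (hK : ∀ j ∉ K, v j = u j)
    (i : Fin n) : p v i ≤ x v i * v i := by
  by_cases hi : i ∈ K
  · have := h.individually_rational v hv hK i hi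
    linarith
  · obtain ⟨h1, h2⟩ := h.outside v hv hK i hi
    rw [h1, h2]; simp

theorem x_le_one {K : Finset (Fin n)} {u : Fin n → ℝ} {x p : (Fin n → ℝ) → Fin n → ℝ}
    (h : IsMechanism K u x p) {v : Fin n → ℝ} (hv : ∀ i, 0 < v i) (hK : ∀ j ∉ K, v j = u j)
    (i : Fin n) : x v i ≤ 1 :=
  le_trans (Finset.single_le_sum (fun j _ => h.nonneg v hv hK j) (mem_univ i)) (h.sum_le v hv hK)

theorem mono_x {K : Finset (Fin n)} {u : Fin n → ℝ} {x p : (Fin n → ℝ) → Fin n → ℝ}
    (h : IsMechanism K u x p) {v : Fin n → ℝ} (hv : ∀ i, 0 < v i) (hK : ∀ j ∉ K, v j = u j)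
    {i : Fin n} (hi : i ∈ K) {b : ℝ} (hb : v i < b) :
    x v i ≤ x (Function.update v i b) i := by
  have hb0 : 0 < b := lt_trans (hv i) hb
  have h1 := h.truthful v hv hK i hi b hb0
  set v' := Function.update v i b with hv'
  have hv'pos : ∀ j, 0 < v' j := by
    intro j
    by_cases hj : j = i
    · subst hj; simp [hv', hb0]
    · simp [hv', hj, hv j]
  have hK' : ∀ j ∉ K, v' j = u j := by
    intro j hj
    have : j ≠ i := fun e => hj (e ▸ hi)
    simp [hv', this, hK j hj]
  have h2 := h.truthful v' hv'pos hK' i hi (v i) (hv i)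
  have h3 : Function.update v' i (v i) = v := by
    simp [hv']
  rw [h3] at h2
  have h4 : v' i = b := by simp [hv']
  rw [h4] at h2
  have h5 : (x v' i - x v i) * (b - v i) ≥ 0 := by nlinarith
  have h6 : 0 < b - v i := by linarith
  have h7 : 0 ≤ x v' i - x v i := nonneg_of_mul_nonneg_left h5 h6
  linarith

theorem opt_bddAbove (D : FinDist n) : BddAbove {r | ∃ x p : (Fin n → ℝ) → Fin n → ℝ,
    IsMechanism univ 0 x p ∧ r = ∑ v ∈ D.pts, D.prob v * ∑ i, p v i} := by
  refine ⟨∑ v ∈ D.pts, D.prob v * ∑ i, v i, ?_⟩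
  rintro r ⟨x, p, h, rfl⟩
  refine Finset.sum_le_sum fun v hv => ?_
  refine mul_le_mul_of_nonneg_left ?_ (D.prob_nonneg v)
  refine Finset.sum_le_sum fun i _ => ?_
  have hpos := D.val_pos v hv
  have hK : ∀ j ∉ (univ : Finset (Fin n)), v j = (0 : Fin n → ℝ) j := fun j hj =>
    absurd (mem_univ j) hj
  have h1 := pay_le h hpos hK i
  have h2 := x_le_one h hpos hK i
  nlinarith [hpos i]

theorem condOPT_nonneg (k : ℕ) (D : FinDist n) (v : Fin n → ℝ) : 0 ≤ condOPT k D v := by
  unfold condOPT
  refine Real.sSup_nonneg' ⟨0, ⟨fun _ _ => 0, fun _ _ => 0, zero_isMechanism _ _, by simp⟩, le_refl _⟩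

theorem rev_nonneg (k : ℕ) (D : FinDist n) : 0 ≤ rev k D :=
  Finset.sum_nonneg fun v _ => mul_nonneg (D.prob_nonneg v) (condOPT_nonneg k D v)

theorem rho_le (k : ℕ) (D : FinDist n) (hD : NoTies k D) {A B : ℝ} (hB : 0 < B)
    (h1 : rev k D ≤ A) (h2 : B ≤ OPT D) : rho k ≤ A / B := by
  have hO : 0 < OPT D := lt_of_lt_of_le hB h2
  have h3 : rho k ≤ rev k D / OPT D := by
    refine csInf_le ⟨0, ?_⟩ ⟨n, D, hD, hO, rfl⟩
    rintro r ⟨n', D', _, h', rfl⟩
    exact div_nonneg (rev_nonneg k D') h'.le
  refine le_trans h3 ?_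
  have hr := rev_nonneg k D
  calc rev k D / OPT D ≤ A / OPT D := by gcongr
    _ ≤ A / B := by
      have hA : 0 ≤ A := le_trans hr h1
      gcongr

end General

/-! ## The parity shift on the grid -/

section Grid

variable {m M : ℕ}

/-- The parity of a grid point. -/
def par (u : Fin m → Fin M) : Prop := Even (∑ i, (u i : ℕ))

instance : DecidablePred (par (m := m) (M := M)) := fun u => by unfold par; infer_instance

/-- Move one step up in coordinate `i` (only meaningful when `u i + 1 < M`). -/
def up (i : Fin m) (u : Fin m → Fin M) (h : (u i : ℕ) + 1 < M) : Fin m → Fin M :=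
  Function.update u i ⟨(u i : ℕ) + 1, h⟩

theorem par_up (i : Fin m) (u : Fin m → Fin M) (h : (u i : ℕ) + 1 < M) :
    par (up i u h) ↔ ¬ par u := by
  unfold par up
  have h1 : ∑ j, ((Function.update u i ⟨(u i : ℕ) + 1, h⟩ : Fin m → Fin M) j : ℕ)
      = (∑ j, (u j : ℕ)) + 1 := by
    rw [← Finset.add_sum_erase _ _ (mem_univ i), ← Finset.add_sum_erase univ (fun j => (u j : ℕ)) (mem_univ i)]
    have h2 : ∑ j ∈ univ.erase i, ((Function.update u i ⟨(u i : ℕ) + 1, h⟩ : Fin m → Fin M) j : ℕ)
        = ∑ j ∈ univ.erase i, (u j : ℕ) := by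
      refine Finset.sum_congr rfl fun j hj => ?_
      rw [Function.update_of_ne (ne_of_mem_erase hj)]
    rw [h2]
    simp
    ring
  rw [h1, Nat.even_add_one]

/-- The points whose `i`-th coordinate is maximal. -/
def topFace (i : Fin m) : Finset (Fin m → Fin M) := univ.filter fun u => ¬ ((u i : ℕ) + 1 < M)

theorem shift (i : Fin m) (P : Prop) [Decidable P] (f : (Fin m → Fin M) → ℝ) (h0 : ∀ u, 0 ≤ f u)
    (h1 : ∀ u, f u ≤ 1) (hf : ∀ u (h : (u i : ℕ) + 1 < M), f u ≤ f (up i u h)) :
    ∑ u ∈ univ.filter (fun u => (par u ↔ P)), f u ≤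
      ∑ u ∈ univ.filter (fun u => ¬ (par u ↔ P)), f u + (topFace (M := M) i).card := by
  classical
  have hsplit : ∑ u ∈ univ.filter (fun u => (par u ↔ P)), f u
      = ∑ u ∈ (univ.filter (fun u => (par u ↔ P))).filter (fun u => (u i : ℕ) + 1 < M), f u
      + ∑ u ∈ (univ.filter (fun u => (par u ↔ P))).filter (fun u => ¬ ((u i : ℕ) + 1 < M)), f u :=
    (Finset.sum_filter_add_sum_filter_not _ _ _).symm
  rw [hsplit]
  refine add_le_add ?_ ?_
  · -- injection
    set S := (univ.filter (fun u : Fin m → Fin M => (par u ↔ P))).filter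
      (fun u => (u i : ℕ) + 1 < M) with hS
    have hmem : ∀ u ∈ S, (u i : ℕ) + 1 < M := fun u hu => (mem_filter.mp hu).2
    have hstep : ∑ u ∈ S, f u ≤ ∑ u ∈ S.attach, f (up i u.1 (hmem u.1 u.2)) := by
      rw [← Finset.sum_attach S f]
      exact Finset.sum_le_sum fun u _ => hf u.1 _
    refine le_trans hstep ?_
    have hinj : Set.InjOn (fun u : {x // x ∈ S} => up i u.1 (hmem u.1 u.2)) (S.attach : Set _) := by
      intro a _ b _ hab
      apply Subtype.ext
      funext j
      have hj := congrFun hab j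
      by_cases hji : j = i
      · subst hji
        simp only [up, Function.update_self, Fin.mk.injEq] at hj
        exact Fin.ext (by omega)
      · simp only [up, Function.update_of_ne hji] at hj
        exact hj
    rw [← Finset.sum_image hinj]
    refine Finset.sum_le_sum_of_subset_of_nonneg ?_ (fun u _ _ => h0 u)
    intro u hu
    rw [mem_image] at hu
    obtain ⟨a, _, rfl⟩ := hu
    have ha := (mem_filter.mp (mem_filter.mp a.2).1).2
    rw [mem_filter]
    refine ⟨mem_univ _, ?_⟩
    rw [par_up]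
    tauto
  · calc ∑ u ∈ (univ.filter (fun u => (par u ↔ P))).filter (fun u => ¬ ((u i : ℕ) + 1 < M)), f u
        ≤ ∑ _u ∈ (univ.filter (fun u : Fin m → Fin M => (par u ↔ P))).filter
          (fun u => ¬ ((u i : ℕ) + 1 < M)), (1 : ℝ) := Finset.sum_le_sum fun u _ => h1 u
      _ = (((univ.filter (fun u : Fin m → Fin M => (par u ↔ P))).filter
          (fun u => ¬ ((u i : ℕ) + 1 < M))).card : ℝ) := by simp
      _ ≤ ((topFace (M := M) i).card : ℝ) := by
          exact_mod_cast Finset.card_le_card (by
            intro u hu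
            rw [mem_filter, mem_filter] at hu
            exact mem_filter.mpr ⟨mem_univ _, hu.2⟩)

theorem card_topFace (i : Fin m) (hM : 0 < M) :
    (topFace (M := M) i).card * M = M ^ m := by
  classical
  have h1 : (topFace (M := M) i) = Fintype.piFinset (fun j : Fin m =>
      if j = i then ({⟨M - 1, by omega⟩} : Finset (Fin M)) else univ) := by
    ext u
    simp only [topFace, mem_filter, mem_univ, true_and, Fintype.mem_piFinset]
    constructor
    · intro h j
      by_cases hj : j = i
      · subst hj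
        simp only [if_true, mem_singleton]
        exact Fin.ext (by have := (u j).2; simp; omega)
      · simp [hj]
    · intro h
      have := h i
      simp only [if_true, mem_singleton] at this
      rw [this]
      simp
      omega
  rw [h1, Fintype.card_piFinset]
  rw [← Finset.mul_prod_erase _ _ (mem_univ i)]
  have h2 : ∏ j ∈ univ.erase i, (if j = i then ({⟨M - 1, by omega⟩} : Finset (Fin M)) else univ).card
      = M ^ (m - 1) := by
    rw [Finset.prod_congr rfl (g := fun _ => M)]
    · rw [Finset.prod_const, card_erase_of_mem (mem_univ i), card_univ, Fintype.card_fin]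
    · intro j hj
      rw [if_neg (ne_of_mem_erase hj), card_univ, Fintype.card_fin]
  rw [h2]
  have hm : 0 < m := Fin.pos i
  simp only [if_true, card_singleton, one_mul]
  rw [← pow_succ]
  congr 1
  omega

end Grid

/-! ## The distribution -/

section Construction

variable {m M : ℕ}

/-- The value of a signal bidder whose signal is `a`. -/
noncomputable def sv (a : Fin M) : ℝ := 1 + ((a : ℕ) + 1) / (M : ℝ) ^ 2

theorem one_lt_sv (a : Fin M) : 1 < sv a := by
  have hM : 0 < M := Fin.pos a
  unfold sv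
  have : (0 : ℝ) < ((a : ℕ) + 1) / (M : ℝ) ^ 2 := by positivity
  linarith

theorem sv_le (a : Fin M) : sv a ≤ 1 + 1 / (M : ℝ) := by
  have hM : (0 : ℝ) < M := by exact_mod_cast Fin.pos a
  unfold sv
  have h1 : (((a : ℕ) : ℝ) + 1) ≤ M := by exact_mod_cast a.2
  have : (((a : ℕ) : ℝ) + 1) / (M : ℝ) ^ 2 ≤ 1 / (M : ℝ) := by
    rw [div_le_div_iff₀ (by positivity) hM]
    nlinarith
  linarith

theorem sv_lt {a b : Fin M} (h : (a : ℕ) < b) : sv a < sv b := by
  have hM : (0 : ℝ) < M := by exact_mod_cast Fin.pos a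
  unfold sv
  have h1 : ((a : ℕ) : ℝ) < b := by exact_mod_cast h
  have : (((a : ℕ) : ℝ) + 1) / (M : ℝ) ^ 2 < (((b : ℕ) : ℝ) + 1) / (M : ℝ) ^ 2 := by
    gcongr
  linarith

theorem sv_inj {a b : Fin M} (h : sv a = sv b) : a = b := by
  rcases lt_trichotomy (a : ℕ) b with h1 | h1 | h1
  · exact absurd h (sv_lt h1).ne
  · exact Fin.ext h1
  · exact absurd h (sv_lt h1).ne'

/-- The index of the `i`-th signal bidder. -/
def sig (i : Fin m) : Fin (m + 2) := i.castSucc.succ

/-- Valuation vector: the special bidder (index `0`) has value `w`, the signal bidders have the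
values given by `u`, and the last bidder has value `1`. -/
noncomputable def val (u : Fin m → Fin M) (w : ℝ) : Fin (m + 2) → ℝ :=
  Fin.cons w (Fin.snoc (α := fun _ => ℝ) (fun i => sv (u i)) 1)

theorem val_zero (u : Fin m → Fin M) (w : ℝ) : val u w 0 = w := rfl

theorem val_sig (u : Fin m → Fin M) (w : ℝ) (i : Fin m) : val u w (sig i) = sv (u i) := by
  unfold val sig
  rw [Fin.cons_succ, Fin.snoc_castSucc]

theorem val_last (u : Fin m → Fin M) (w : ℝ) : val u w (Fin.last (m + 1)) = 1 := by
  unfold val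
  rw [← Fin.succ_last, Fin.cons_succ, Fin.snoc_last]

theorem idx_cases (j : Fin (m + 2)) : j = 0 ∨ (∃ i : Fin m, j = sig i) ∨ j = Fin.last (m + 1) := by
  rcases Fin.eq_zero_or_eq_succ j with h | ⟨j', rfl⟩
  · exact Or.inl h
  · rcases Fin.eq_castSucc_or_eq_last j' with ⟨i, rfl⟩ | rfl
    · exact Or.inr (Or.inl ⟨i, rfl⟩)
    · exact Or.inr (Or.inr (Fin.succ_last _))

theorem sig_ne_zero (i : Fin m) : sig i ≠ 0 := Fin.succ_ne_zero _

theorem sig_ne_last (i : Fin m) : sig i ≠ Fin.last (m + 1) := by
  unfold sig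
  rw [← Fin.succ_last]
  intro h
  have := Fin.succ_injective _ h
  exact absurd this (Fin.castSucc_lt_last i).ne

theorem zero_ne_last : (0 : Fin (m + 2)) ≠ Fin.last (m + 1) := by
  intro h
  have := congrArg Fin.val h
  simp at this

theorem sig_inj {i j : Fin m} (h : sig i = sig j) : i = j :=
  Fin.castSucc_injective _ (Fin.succ_injective _ h)

theorem sum_idx (f : Fin (m + 2) → ℝ) :
    ∑ j, f j = f 0 + ∑ i, f (sig i) + f (Fin.last (m + 1)) := by
  rw [Fin.sum_univ_succ, Fin.sum_univ_castSucc, Fin.succ_last]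
  unfold sig
  ring

theorem val_ext {v : Fin (m + 2) → ℝ} {u : Fin m → Fin M} {w : ℝ} (h0 : v 0 = w)
    (hs : ∀ i, v (sig i) = sv (u i)) (hl : v (Fin.last (m + 1)) = 1) : v = val u w := by
  funext j
  rcases idx_cases j with rfl | ⟨i, rfl⟩ | rfl
  · rw [h0, val_zero]
  · rw [hs, val_sig]
  · rw [hl, val_last]

theorem update_zero (u : Fin m → Fin M) (w w' : ℝ) :
    Function.update (val u w) 0 w' = val u w' := by
  refine val_ext (by simp) (fun i => ?_) ?_
  · rw [Function.update_of_ne (sig_ne_zero i), val_sig]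
  · rw [Function.update_of_ne zero_ne_last.symm, val_last]

theorem update_sig (u : Fin m → Fin M) (w : ℝ) (i : Fin m) (h : (u i : ℕ) + 1 < M) :
    Function.update (val u w) (sig i) (sv ⟨(u i : ℕ) + 1, h⟩) = val (up i u h) w := by
  refine val_ext ?_ (fun j => ?_) ?_
  · rw [Function.update_of_ne (sig_ne_zero i).symm, val_zero]
  · by_cases hj : j = i
    · subst hj
      simp [up]
    · rw [Function.update_of_ne (fun e => hj (sig_inj e)), val_sig]
      simp [up, hj]
  · rw [Function.update_of_ne (sig_ne_last i).symm, val_last]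

theorem val_inj {u u' : Fin m → Fin M} {w w' : ℝ} (h : val u w = val u' w') : u = u' ∧ w = w' := by
  constructor
  · funext i
    have := congrFun h (sig i)
    rw [val_sig, val_sig] at this
    exact sv_inj this
  · have := congrFun h 0
    rwa [val_zero, val_zero] at this

/-- The value of the special bidder: high (`B`) or low (`2`). -/
noncomputable def ww (B : ℝ) (b : Bool) : ℝ := if b then B else 2

/-- The probability of the state `(u, b)`. -/
noncomputable def wt (B : ℝ) (a : (Fin m → Fin M) × Bool) : ℝ :=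
  (if par a.1 then (if a.2 then 2 / B else 1 - 2 / B) else (if a.2 then 0 else 1)) /
    ((M : ℝ) ^ m)

/-- The valuation vector of the state `a`. -/
noncomputable def vec (B : ℝ) (a : (Fin m → Fin M) × Bool) : Fin (m + 2) → ℝ := val a.1 (ww B a.2)

theorem vec_inj {B : ℝ} (hB : 2 < B) : Function.Injective (vec (m := m) (M := M) B) := by
  rintro ⟨u, b⟩ ⟨u', b'⟩ h
  obtain ⟨h1, h2⟩ := val_inj h
  simp only at h1 h2
  subst h1
  congr 1
  unfold ww at h2
  cases b <;> cases b' <;> simp_all

theorem wt_nonneg {B : ℝ} (hB : 2 < B) (a : (Fin m → Fin M) × Bool) : 0 ≤ wt B a := by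
  unfold wt
  have h1 : 0 < 2 / B := by positivity
  have h2 : 2 / B < 1 := by rw [div_lt_one (by linarith)]; exact hB
  have h3 : (0 : ℝ) ≤ (M : ℝ) ^ m := by positivity
  split_ifs
  · exact div_nonneg h1.le h3
  · exact div_nonneg (by linarith) h3
  · simp
  · exact div_nonneg zero_le_one h3

theorem sum_states (B : ℝ) (F : (Fin m → Fin M) × Bool → ℝ) :
    ∑ a, wt B a * F a = (1 / (M : ℝ) ^ m) *
      (∑ u ∈ univ.filter (fun u => (par u ↔ True)), ((1 - 2 / B) * F (u, false) + 2 / B * F (u, true))
        + ∑ u ∈ univ.filter (fun u => ¬ (par u ↔ True)), F (u, false)) := by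
  rw [Fintype.sum_prod_type]
  rw [← Finset.sum_filter_add_sum_filter_not univ (fun u : Fin m → Fin M => (par u ↔ True))]
  rw [mul_add, Finset.mul_sum, Finset.mul_sum]
  congr 1
  · refine Finset.sum_congr rfl fun u hu => ?_
    have hu' : par u := by simpa using (mem_filter.mp hu).2
    rw [Fintype.sum_bool]
    simp only [wt, hu', if_true]
    simp
    ring
  · refine Finset.sum_congr rfl fun u hu => ?_
    have hu' : ¬ par u := by simpa using (mem_filter.mp hu).2
    rw [Fintype.sum_bool]
    simp only [wt, hu', if_false]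
    simp

/-- The distribution. -/
noncomputable def dist (m M : ℕ) (B : ℝ) (hM : 0 < M) (hB : 2 < B) : FinDist (m + 2) where
  pts := univ.map ⟨vec (m := m) (M := M) B, vec_inj hB⟩
  prob := fun v => ∑ a : (Fin m → Fin M) × Bool, if vec B a = v then wt B a else 0
  prob_nonneg := fun v => Finset.sum_nonneg fun a _ => by
    split_ifs
    · exact wt_nonneg hB a
    · exact le_refl _
  prob_sum := by
    rw [Finset.sum_map]
    simp only [Function.Embedding.coeFn_mk]
    have h1 : ∀ a : (Fin m → Fin M) × Bool,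
        (∑ a' : (Fin m → Fin M) × Bool, if vec B a' = vec B a then wt B a' else 0) = wt B a := by
      intro a
      rw [Finset.sum_eq_single a]
      · simp
      · intro b _ hb
        rw [if_neg (fun e => hb (vec_inj hB e))]
      · intro h; exact absurd (mem_univ _) h
    rw [Finset.sum_congr rfl fun a _ => h1 a]
    have h2 := sum_states (m := m) (M := M) B (fun _ => 1)
    simp only [mul_one] at h2
    rw [h2]
    have h3 : ∀ u : Fin m → Fin M, (1 - 2 / B + 2 / B) = (1 : ℝ) := fun _ => by ring
    rw [Finset.sum_congr rfl fun u _ => h3 u]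
    rw [Finset.sum_filter_add_sum_filter_not univ (fun u : Fin m → Fin M => (par u ↔ True))]
    have hMpos : (0 : ℝ) < (M : ℝ) ^ m := by positivity
    simp
    field_simp
  val_pos := by
    intro v hv i
    rw [Finset.mem_map] at hv
    obtain ⟨a, _, rfl⟩ := hv
    simp only [Function.Embedding.coeFn_mk, vec]
    rcases idx_cases i with rfl | ⟨j, rfl⟩ | rfl
    · rw [val_zero]; unfold ww; split_ifs <;> linarith
    · rw [val_sig]; linarith [one_lt_sv (a.1 j)]
    · rw [val_last]; exact one_pos

theorem sum_dist {m M : ℕ} {B : ℝ} (hM : 0 < M) (hB : 2 < B) (f : (Fin (m + 2) → ℝ) → ℝ) :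
    ∑ v ∈ (dist m M B hM hB).pts, (dist m M B hM hB).prob v * f v =
      ∑ a : (Fin m → Fin M) × Bool, wt B a * f (vec B a) := by
  unfold dist
  simp only
  rw [Finset.sum_map]
  refine Finset.sum_congr rfl fun a _ => ?_
  simp only [Function.Embedding.coeFn_mk]
  congr 1
  rw [Finset.sum_eq_single a]
  · simp
  · intro b _ hb
    rw [if_neg (fun e => hb (vec_inj hB e))]
  · intro h; exact absurd (mem_univ _) h

/-! ## The lookahead revenue -/

theorem val_gt_one {B : ℝ} (hB : 2 < B) (a : (Fin m → Fin M) × Bool) {j : Fin (m + 2)}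
    (hj : j ≠ Fin.last (m + 1)) : 1 < vec B a j := by
  unfold vec
  rcases idx_cases j with rfl | ⟨i, rfl⟩ | rfl
  · rw [val_zero]; unfold ww; split_ifs <;> linarith
  · rw [val_sig]; exact one_lt_sv _
  · exact absurd rfl hj

theorem vec_last (B : ℝ) (a : (Fin m → Fin M) × Bool) : vec B a (Fin.last (m + 1)) = 1 :=
  val_last _ _

theorem topK_vec {B : ℝ} (hB : 2 < B) (a : (Fin m → Fin M) × Bool) :
    topK (m + 1) (vec B a) = univ.erase (Fin.last (m + 1)) := by
  ext i
  simp only [topK, mem_filter, mem_univ, true_and, mem_erase, and_true]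
  constructor
  · intro h hi
    subst hi
    have h1 : (univ.filter fun j => vec B a (Fin.last (m + 1)) < vec B a j ∨
        (vec B a j = vec B a (Fin.last (m + 1)) ∧ j < Fin.last (m + 1)))
        = univ.erase (Fin.last (m + 1)) := by
      ext j
      simp only [mem_filter, mem_univ, true_and, mem_erase, and_true]
      constructor
      · rintro (h | h) rfl
        · exact lt_irrefl _ h
        · exact lt_irrefl _ h.2
      · intro hj
        left
        rw [vec_last]
        exact val_gt_one hB a hj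
    rw [h1, card_erase_of_mem (mem_univ _), card_univ, Fintype.card_fin] at h
    omega
  · intro hi
    have h1 : (univ.filter fun j => vec B a i < vec B a j ∨ (vec B a j = vec B a i ∧ j < i))
        ⊆ (univ.erase (Fin.last (m + 1))).erase i := by
      intro j
      simp only [mem_filter, mem_univ, true_and, mem_erase, and_true]
      intro h
      constructor
      · rintro rfl
        rcases h with h | h
        · exact lt_irrefl _ h
        · exact lt_irrefl _ h.2
      · rintro rfl
        have h2 := val_gt_one hB a hi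
        rw [vec_last] at h
        rcases h with h | h
        · linarith
        · linarith [h.1]
    have h2 := card_le_card h1
    rw [card_erase_of_mem, card_erase_of_mem (mem_univ _), card_univ, Fintype.card_fin] at h2
    · omega
    · simp [hi]

theorem noTies_dist {B : ℝ} (hM : 0 < M) (hB : 2 < B) : NoTies (m + 1) (dist m M B hM hB) := by
  intro v hv i hi j hj
  have hv' : ∃ b : (Fin m → Fin M) × Bool, vec B b = v := by simpa [dist] using hv
  obtain ⟨a, rfl⟩ := hv'
  rw [topK_vec hB] at hi hj
  have : j = Fin.last (m + 1) := by simpa using hj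
  subst this
  rw [vec_last]
  exact val_gt_one hB a (by simpa using hi)

theorem condPts_vec {B : ℝ} (hM : 0 < M) (hB : 2 < B) (a : (Fin m → Fin M) × Bool) :
    condPts (m + 1) (dist m M B hM hB) (vec B a) = (dist m M B hM hB).pts := by
  unfold condPts
  rw [topK_vec hB]
  refine Finset.filter_true_of_mem ?_
  intro v hv
  have hv' : ∃ b : (Fin m → Fin M) × Bool, vec B b = v := by
    simpa [dist] using hv
  obtain ⟨b, rfl⟩ := hv'
  constructor
  · intro j hj
    have : j = Fin.last (m + 1) := by simpa using hj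
    subst this
    rw [vec_last, vec_last]
  · intro i hi j hj
    have : j = Fin.last (m + 1) := by simpa using hj
    subst this
    rw [vec_last]
    exact (val_gt_one hB b (by simpa using hi)).le

theorem lookahead_bound {B : ℝ} (hM : 0 < M) (hB : 2 < B) {u₀ : Fin (m + 2) → ℝ}
    (hu₀ : u₀ (Fin.last (m + 1)) = 1)
    {x p : (Fin (m + 2) → ℝ) → Fin (m + 2) → ℝ}
    (h : IsMechanism (univ.erase (Fin.last (m + 1))) u₀ x p) :
    ∑ a : (Fin m → Fin M) × Bool, wt B a * ∑ i, p (vec B a) i ≤
      2 + 2 / (M : ℝ) + 2 * m / M + 4 / B := by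
  have hMr : (0 : ℝ) < M := by exact_mod_cast hM
  have hM1 : (1 : ℝ) ≤ M := by exact_mod_cast hM
  have hB0 : 0 < B := by linarith
  set N : ℝ := (M : ℝ) ^ m with hN
  have hNpos : 0 < N := by positivity
  set e : ℝ := 1 / (M : ℝ) with he
  have he0 : 0 < e := by positivity
  have he1 : e ≤ 1 := by rw [he, div_le_one hMr]; exact hM1
  set t : ℝ := 2 / B with ht
  have ht0 : 0 < t := by positivity
  have ht1 : t < 1 := by rw [ht, div_lt_one hB0]; exact hB
  have hpos : ∀ (u : Fin m → Fin M) (w : ℝ), 0 < w → ∀ i, 0 < val u w i := by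
    intro u w hw i
    rcases idx_cases i with rfl | ⟨j, rfl⟩ | rfl
    · rw [val_zero]; exact hw
    · rw [val_sig]; linarith [one_lt_sv (u j)]
    · rw [val_last]; exact one_pos
  have hK : ∀ (u : Fin m → Fin M) (w : ℝ), ∀ j ∉ univ.erase (Fin.last (m + 1)),
      val u w j = u₀ j := by
    intro u w j hj
    have : j = Fin.last (m + 1) := by simpa using hj
    subst this
    rw [val_last, hu₀]
  have hlast : ∀ (u : Fin m → Fin M) (w : ℝ), 0 < w →
      x (val u w) (Fin.last (m + 1)) = 0 ∧ p (val u w) (Fin.last (m + 1)) = 0 :=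
    fun u w hw => h.outside _ (hpos u w hw) (hK u w) _ (by simp)
  -- total allocation to the signal bidders
  set Q : (Fin m → Fin M) → ℝ := fun u => ∑ i, x (val u 2) (sig i) with hQ
  have hx0 : ∀ (u : Fin m → Fin M) (w : ℝ), 0 < w → ∀ j, 0 ≤ x (val u w) j :=
    fun u w hw => h.nonneg _ (hpos u w hw) (hK u w)
  have hx1 : ∀ (u : Fin m → Fin M) (w : ℝ), 0 < w →
      x (val u w) 0 + ∑ i, x (val u w) (sig i) ≤ 1 := by
    intro u w hw
    have h1 := h.sum_le _ (hpos u w hw) (hK u w)
    rw [sum_idx, (hlast u w hw).1] at h1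
    linarith
  have hxs0 : ∀ (u : Fin m → Fin M) (w : ℝ), 0 < w → 0 ≤ ∑ i, x (val u w) (sig i) :=
    fun u w hw => Finset.sum_nonneg fun i _ => hx0 u w hw _
  have hQ0 : ∀ u, 0 ≤ Q u := fun u => hxs0 u 2 two_pos
  have hsig : ∀ (u : Fin m → Fin M) (w : ℝ), 0 < w →
      ∑ i, p (val u w) (sig i) ≤ (1 + e) * ∑ i, x (val u w) (sig i) := by
    intro u w hw
    rw [Finset.mul_sum]
    refine Finset.sum_le_sum fun i _ => ?_
    have h1 := pay_le h (hpos u w hw) (hK u w) (sig i)
    rw [val_sig] at h1
    have h2 := sv_le (u i)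
    have h3 := hx0 u w hw (sig i)
    nlinarith
  have hp2 : ∀ u : Fin m → Fin M, p (val u 2) 0 ≤ 2 * x (val u 2) 0 := by
    intro u
    have h1 := pay_le h (hpos u 2 two_pos) (hK u 2) 0
    rw [val_zero] at h1
    linarith
  have hpB : ∀ u : Fin m → Fin M,
      p (val u B) 0 ≤ B * (x (val u B) 0 - x (val u 2) 0) + p (val u 2) 0 := by
    intro u
    have h1 := h.truthful _ (hpos u B hB0) (hK u B) 0 (by simp) 2 two_pos
    rw [update_zero, val_zero] at h1
    linarith
  -- sum of the payments in one state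
  have hsum : ∀ (u : Fin m → Fin M) (w : ℝ), 0 < w →
      ∑ i, p (val u w) i = p (val u w) 0 + ∑ i, p (val u w) (sig i) := by
    intro u w hw
    rw [sum_idx, (hlast u w hw).2, add_zero]
  have heven : ∀ u : Fin m → Fin M,
      (1 - t) * ∑ i, p (vec B (u, false)) i + t * ∑ i, p (vec B (u, true)) i ≤
        2 + (1 + e) * Q u + 2 * t := by
    intro u
    have e1 : vec B (u, false) = val u 2 := by simp [vec, ww]
    have e2 : vec B (u, true) = val u B := by simp [vec, ww]
    rw [e1, e2, hsum u 2 two_pos, hsum u B hB0]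
    have h1 := hsig u 2 two_pos
    have h2 := hsig u B hB0
    have h3 := hp2 u
    have h4 := hpB u
    have h5 := hx1 u B hB0
    have h6 := hx1 u 2 two_pos
    have h7 := hx0 u 2 two_pos 0
    have h8 := hx0 u B hB0 0
    have h9 := hxs0 u B hB0
    have h10 := hQ0 u
    have htB : t * B = 2 := by rw [ht]; field_simp
    have h11 : t * p (val u B) 0 ≤ 2 * (x (val u B) 0 - x (val u 2) 0) + t * p (val u 2) 0 := by
      have := mul_le_mul_of_nonneg_left h4 ht0.le
      calc t * p (val u B) 0 ≤ t * (B * (x (val u B) 0 - x (val u 2) 0) + p (val u 2) 0) := this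
        _ = (t * B) * (x (val u B) 0 - x (val u 2) 0) + t * p (val u 2) 0 := by ring
        _ = _ := by rw [htB]
    have h12 : x (val u B) 0 ≤ 1 := by linarith
    have h13 : ∑ i, x (val u B) (sig i) ≤ 1 := by linarith
    have h14 : t * ∑ i, p (val u B) (sig i) ≤ t * 2 := by
      refine mul_le_mul_of_nonneg_left ?_ ht0.le
      nlinarith
    have h15 : (1 - t) * ∑ i, p (val u 2) (sig i) ≤ (1 + e) * Q u := by
      have : (1 - t) * ∑ i, p (val u 2) (sig i) ≤ (1 - t) * ((1 + e) * Q u) :=
        mul_le_mul_of_nonneg_left h1 (by linarith)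
      have h16 : 0 ≤ (1 + e) * Q u := by positivity
      nlinarith
    linarith [h11, h14, h15, h3, h12]
  have hodd : ∀ u : Fin m → Fin M, ∑ i, p (vec B (u, false)) i ≤ 2 - (1 - e) * Q u := by
    intro u
    have e1 : vec B (u, false) = val u 2 := by simp [vec, ww]
    rw [e1, hsum u 2 two_pos]
    have h1 := hsig u 2 two_pos
    have h3 := hp2 u
    have h6 := hx1 u 2 two_pos
    have hQu : Q u = ∑ i, x (val u 2) (sig i) := rfl
    rw [← hQu] at h1 h6
    linarith
  -- the shift inequality
  have hshift : ∑ u ∈ univ.filter (fun u : Fin m → Fin M => (par u ↔ True)), Q u ≤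
      ∑ u ∈ univ.filter (fun u : Fin m → Fin M => ¬ (par u ↔ True)), Q u + m * (N / M) := by
    have h1 : ∀ i : Fin m, ∑ u ∈ univ.filter (fun u : Fin m → Fin M => (par u ↔ True)),
        x (val u 2) (sig i) ≤
        ∑ u ∈ univ.filter (fun u : Fin m → Fin M => ¬ (par u ↔ True)), x (val u 2) (sig i) + N / M := by
      intro i
      have h2 := shift i True (fun u : Fin m → Fin M => x (val u 2) (sig i))
        (fun u => hx0 u 2 two_pos _) (fun u => x_le_one h (hpos u 2 two_pos) (hK u 2) _)
        (by
          intro u hu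
          have h3 := mono_x h (hpos u 2 two_pos) (hK u 2) (i := sig i)
            (by simp [sig_ne_last]) (b := sv ⟨(u i : ℕ) + 1, hu⟩)
            (by rw [val_sig]; exact sv_lt (by simp))
          rw [update_sig] at h3
          exact h3)
      have h4 : ((topFace (M := M) i).card : ℝ) = N / M := by
        rw [eq_div_iff hMr.ne', hN]
        exact_mod_cast card_topFace (M := M) i hM
      rw [h4] at h2
      exact h2
    simp only [hQ]
    rw [Finset.sum_comm, Finset.sum_comm (s := univ.filter (fun u : Fin m → Fin M => ¬ (par u ↔ True)))]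
    calc ∑ i, ∑ u ∈ univ.filter (fun u : Fin m → Fin M => (par u ↔ True)), x (val u 2) (sig i)
        ≤ ∑ i : Fin m, (∑ u ∈ univ.filter (fun u : Fin m → Fin M => ¬ (par u ↔ True)),
          x (val u 2) (sig i) + N / M) := Finset.sum_le_sum fun i _ => h1 i
      _ = _ := by
        rw [Finset.sum_add_distrib]
        simp
  -- counting
  have hcount : ((univ.filter (fun u : Fin m → Fin M => (par u ↔ True))).card : ℝ) +
      ((univ.filter (fun u : Fin m → Fin M => ¬ (par u ↔ True))).card : ℝ) = N := by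
    have := Finset.card_filter_add_card_filter_not (s := (univ : Finset (Fin m → Fin M)))
      (fun u => (par u ↔ True))
    rw [card_univ, Fintype.card_fun, Fintype.card_fin, Fintype.card_fin] at this
    rw [hN]
    exact_mod_cast this
  have hQodd : ∑ u ∈ univ.filter (fun u : Fin m → Fin M => ¬ (par u ↔ True)), Q u ≤ N := by
    calc ∑ u ∈ univ.filter (fun u : Fin m → Fin M => ¬ (par u ↔ True)), Q u
        ≤ ∑ _u ∈ univ.filter (fun u : Fin m → Fin M => ¬ (par u ↔ True)), (1 : ℝ) :=
          Finset.sum_le_sum fun u _ => by linarith [hx1 u 2 two_pos, hx0 u 2 two_pos 0]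
      _ = ((univ.filter (fun u : Fin m → Fin M => ¬ (par u ↔ True))).card : ℝ) := by simp
      _ ≤ N := by
        have : (0 : ℝ) ≤ ((univ.filter (fun u : Fin m → Fin M => (par u ↔ True))).card : ℝ) := by
          positivity
        linarith
  rw [sum_states B (fun a => ∑ i, p (vec B a) i)]
  have h1 : ∑ u ∈ univ.filter (fun u : Fin m → Fin M => (par u ↔ True)),
      ((1 - 2 / B) * ∑ i, p (vec B (u, false)) i + 2 / B * ∑ i, p (vec B (u, true)) i) ≤
      ∑ u ∈ univ.filter (fun u : Fin m → Fin M => (par u ↔ True)), (2 + (1 + e) * Q u + 2 * t) :=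
    Finset.sum_le_sum fun u _ => heven u
  have h2 : ∑ u ∈ univ.filter (fun u : Fin m → Fin M => ¬ (par u ↔ True)),
      ∑ i, p (vec B (u, false)) i ≤
      ∑ u ∈ univ.filter (fun u : Fin m → Fin M => ¬ (par u ↔ True)), (2 - (1 - e) * Q u) :=
    Finset.sum_le_sum fun u _ => hodd u
  have h1' : ∑ u ∈ univ.filter (fun u : Fin m → Fin M => (par u ↔ True)), (2 + (1 + e) * Q u + 2 * t)
      = ((univ.filter (fun u : Fin m → Fin M => (par u ↔ True))).card : ℝ) * 2 +
        (1 + e) * ∑ u ∈ univ.filter (fun u : Fin m → Fin M => (par u ↔ True)), Q u +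
        ((univ.filter (fun u : Fin m → Fin M => (par u ↔ True))).card : ℝ) * (2 * t) := by
    rw [Finset.sum_add_distrib, Finset.sum_add_distrib, ← Finset.mul_sum, Finset.sum_const,
      Finset.sum_const, nsmul_eq_mul, nsmul_eq_mul]
  have h2' : ∑ u ∈ univ.filter (fun u : Fin m → Fin M => ¬ (par u ↔ True)), (2 - (1 - e) * Q u)
      = ((univ.filter (fun u : Fin m → Fin M => ¬ (par u ↔ True))).card : ℝ) * 2 -
        (1 - e) * ∑ u ∈ univ.filter (fun u : Fin m → Fin M => ¬ (par u ↔ True)), Q u := by
    rw [Finset.sum_sub_distrib, ← Finset.mul_sum, Finset.sum_const, nsmul_eq_mul]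
  rw [h1'] at h1
  rw [h2'] at h2
  set cE : ℝ := ((univ.filter (fun u : Fin m → Fin M => (par u ↔ True))).card : ℝ) with hcE
  set cO : ℝ := ((univ.filter (fun u : Fin m → Fin M => ¬ (par u ↔ True))).card : ℝ) with hcO
  set qE : ℝ := ∑ u ∈ univ.filter (fun u : Fin m → Fin M => (par u ↔ True)), Q u with hqE
  set qO : ℝ := ∑ u ∈ univ.filter (fun u : Fin m → Fin M => ¬ (par u ↔ True)), Q u with hqO
  have hcO0 : 0 ≤ cO := by rw [hcO]; positivity
  have h3 : (1 + e) * qE ≤ (1 + e) * (qO + m * (N / M)) :=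
    mul_le_mul_of_nonneg_left hshift (by linarith)
  have h4 : (1 + e) * (m * (N / M)) ≤ 2 * (m * (N / M)) :=
    mul_le_mul_of_nonneg_right (by linarith) (by positivity)
  have h5 : 2 * e * qO ≤ 2 * e * N := mul_le_mul_of_nonneg_left hQodd (by linarith)
  have h6 : cE * (2 * t) ≤ N * (2 * t) := mul_le_mul_of_nonneg_right (by linarith) (by linarith)
  have h7 : ∑ u ∈ univ.filter (fun u : Fin m → Fin M => (par u ↔ True)),
      ((1 - 2 / B) * ∑ i, p (vec B (u, false)) i + 2 / B * ∑ i, p (vec B (u, true)) i) +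
      ∑ u ∈ univ.filter (fun u : Fin m → Fin M => ¬ (par u ↔ True)),
      ∑ i, p (vec B (u, false)) i ≤ 2 * N + 2 * e * N + 2 * (m * (N / M)) + N * (2 * t) := by
    nlinarith [h1, h2, h3, h4, h5, h6, hcount]
  calc 1 / N * _ ≤ 1 / N * (2 * N + 2 * e * N + 2 * (m * (N / M)) + N * (2 * t)) :=
        mul_le_mul_of_nonneg_left h7 (by positivity)
    _ = 2 + 2 / (M : ℝ) + 2 * m / M + 4 / B := by
        rw [he, ht]
        field_simp
        ring

theorem rev_le {B : ℝ} (hM : 0 < M) (hB : 2 < B) :
    rev (m + 1) (dist m M B hM hB) ≤ 2 + 2 / (M : ℝ) + 2 * m / M + 4 / B := by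
  set C : ℝ := 2 + 2 / (M : ℝ) + 2 * m / M + 4 / B with hC
  have hps : ∑ v ∈ (dist m M B hM hB).pts, (dist m M B hM hB).prob v = 1 :=
    (dist m M B hM hB).prob_sum
  have h1 : ∀ v ∈ (dist m M B hM hB).pts, condOPT (m + 1) (dist m M B hM hB) v ≤ C := by
    intro v hv
    have hv' : ∃ b : (Fin m → Fin M) × Bool, vec B b = v := by simpa [dist] using hv
    obtain ⟨a, rfl⟩ := hv'
    unfold condOPT
    refine csSup_le ⟨0, fun _ _ => 0, fun _ _ => 0, zero_isMechanism _ _, by simp⟩ ?_
    rintro r ⟨x, p, hmech, rfl⟩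
    rw [condPts_vec hM hB, hps, div_one, sum_dist hM hB (fun v => ∑ i, p v i)]
    rw [topK_vec hB] at hmech
    exact lookahead_bound hM hB (vec_last B a) hmech
  unfold rev
  calc ∑ v ∈ (dist m M B hM hB).pts,
        (dist m M B hM hB).prob v * condOPT (m + 1) (dist m M B hM hB) v
      ≤ ∑ v ∈ (dist m M B hM hB).pts, (dist m M B hM hB).prob v * C :=
        Finset.sum_le_sum fun v hv =>
          mul_le_mul_of_nonneg_left (h1 v hv) ((dist m M B hM hB).prob_nonneg v)
    _ = C := by rw [← Finset.sum_mul, hps, one_mul]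

/-! ## The optimal revenue -/

/-- The reserve price of the special bidder: `B` if the signals form an even grid point, `2`
otherwise. -/
noncomputable def res (m M : ℕ) (B : ℝ) (v : Fin (m + 2) → ℝ) : ℝ :=
  open Classical in
  if ∃ u : Fin m → Fin M, par u ∧ ∀ i, v (sig i) = sv (u i) then B else 2

theorem res_update_zero (B : ℝ) (v : Fin (m + 2) → ℝ) (b : ℝ) :
    res m M B (Function.update v 0 b) = res m M B v := by
  unfold res
  have : ∀ i : Fin m, Function.update v 0 b (sig i) = v (sig i) :=
    fun i => Function.update_of_ne (sig_ne_zero i) _ _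
  simp only [this]

theorem res_update_last (B : ℝ) (v : Fin (m + 2) → ℝ) (b : ℝ) :
    res m M B (Function.update v (Fin.last (m + 1)) b) = res m M B v := by
  unfold res
  have : ∀ i : Fin m, Function.update v (Fin.last (m + 1)) b (sig i) = v (sig i) :=
    fun i => Function.update_of_ne (sig_ne_last i) _ _
  simp only [this]

theorem res_pos {B : ℝ} (hB : 2 < B) (v : Fin (m + 2) → ℝ) : 0 < res m M B v := by
  unfold res
  split_ifs <;> linarith

theorem res_val (B : ℝ) (u : Fin m → Fin M) (w : ℝ) :
    res m M B (val u w) = if par u then B else 2 := by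
  unfold res
  have h : (∃ u' : Fin m → Fin M, par u' ∧ ∀ i, val u w (sig i) = sv (u' i)) ↔ par u := by
    constructor
    · rintro ⟨u', h1, h2⟩
      have : u = u' := by
        funext i
        have := h2 i
        rw [val_sig] at this
        exact sv_inj this
      rw [this]; exact h1
    · intro h
      exact ⟨u, h, fun i => val_sig u w i⟩
  by_cases hp : par u
  · rw [if_pos (h.mpr hp), if_pos hp]
  · rw [if_neg (fun e => hp (h.mp e)), if_neg hp]

/-- The allocation of the near-optimal mechanism. -/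
noncomputable def xo (m M : ℕ) (B : ℝ) (v : Fin (m + 2) → ℝ) (j : Fin (m + 2)) : ℝ :=
  if j = 0 then (if res m M B v ≤ v 0 then 1 else 0)
  else if j = Fin.last (m + 1) then
    (if v 0 < res m M B v ∧ 1 ≤ v (Fin.last (m + 1)) then 1 else 0)
  else 0

/-- The payments of the near-optimal mechanism. -/
noncomputable def po (m M : ℕ) (B : ℝ) (v : Fin (m + 2) → ℝ) (j : Fin (m + 2)) : ℝ :=
  if j = 0 then (if res m M B v ≤ v 0 then res m M B v else 0)
  else if j = Fin.last (m + 1) then
    (if v 0 < res m M B v ∧ 1 ≤ v (Fin.last (m + 1)) then 1 else 0)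
  else 0

theorem xo_mech {B : ℝ} (hB : 2 < B) : IsMechanism univ 0 (xo m M B) (po m M B) where
  nonneg := by
    intro v _ _ i
    unfold xo
    split_ifs <;> norm_num
  sum_le := by
    intro v _ _
    rw [sum_idx]
    have h1 : ∀ i : Fin m, xo m M B v (sig i) = 0 := by
      intro i
      unfold xo
      rw [if_neg (sig_ne_zero i), if_neg (sig_ne_last i)]
    rw [Finset.sum_eq_zero fun i _ => h1 i]
    unfold xo
    rw [if_pos rfl, if_neg zero_ne_last.symm, if_pos rfl]
    by_cases h2 : res m M B v ≤ v 0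
    · rw [if_pos h2, if_neg (fun h => absurd h.1 (not_lt.mpr h2))]; norm_num
    · rw [if_neg h2]; split_ifs <;> norm_num
  outside := fun v _ _ j hj => absurd (mem_univ j) hj
  individually_rational := by
    intro v hv _ i _
    rcases idx_cases i with rfl | ⟨j, rfl⟩ | rfl
    · unfold xo po
      rw [if_pos rfl, if_pos rfl]
      split_ifs with h <;> linarith
    · unfold xo po
      rw [if_neg (sig_ne_zero j), if_neg (sig_ne_last j), if_neg (sig_ne_zero j)]
      simp
    · unfold xo po
      rw [if_neg zero_ne_last.symm, if_pos rfl, if_neg zero_ne_last.symm]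
      split_ifs with h
      · linarith [h.2]
      · simp
  truthful := by
    intro v hv _ i _ b hb
    rcases idx_cases i with rfl | ⟨j, rfl⟩ | rfl
    · unfold xo po
      simp only [if_true, res_update_zero, Function.update_self]
      split_ifs with h1 h2 h2 <;> linarith
    · unfold xo po
      simp only [if_neg (sig_ne_zero j), if_neg (sig_ne_last j)]
      simp
    · unfold xo po
      simp only [if_neg (zero_ne_last (m := m)).symm, if_true, res_update_last,
        Function.update_self, Function.update_of_ne (zero_ne_last (m := m))]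
      split_ifs with h1 h2 h2
      · linarith
      · have : v (Fin.last (m + 1)) < 1 := by
          by_contra h3
          exact h2 ⟨h1.1, not_lt.mp h3⟩
        linarith
      · linarith [h2.2]
      · linarith

theorem pay_even {B : ℝ} (hB : 2 < B) {u : Fin m → Fin M} (hu : par u) :
    (1 - 2 / B) * ∑ i, po m M B (vec B (u, false)) i + 2 / B * ∑ i, po m M B (vec B (u, true)) i
      = 3 - 2 / B := by
  have e1 : vec B (u, false) = val u 2 := by simp [vec, ww]
  have e2 : vec B (u, true) = val u B := by simp [vec, ww]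
  have hs : ∀ w : ℝ, ∑ i : Fin m, po m M B (val u w) (sig i) = 0 := by
    intro w
    refine Finset.sum_eq_zero fun i _ => ?_
    unfold po
    rw [if_neg (sig_ne_zero i), if_neg (sig_ne_last i)]
  have h0 : po m M B (val u 2) 0 = 0 := by
    unfold po
    rw [if_pos rfl, res_val, if_pos hu, val_zero, if_neg (by linarith)]
  have h1 : po m M B (val u 2) (Fin.last (m + 1)) = 1 := by
    unfold po
    rw [if_neg zero_ne_last.symm, if_pos rfl, res_val, if_pos hu, val_zero, val_last,
      if_pos ⟨hB, le_refl _⟩]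
  have h2 : po m M B (val u B) 0 = B := by
    unfold po
    rw [if_pos rfl, res_val, if_pos hu, val_zero, if_pos (le_refl _)]
  have h3 : po m M B (val u B) (Fin.last (m + 1)) = 0 := by
    unfold po
    rw [if_neg zero_ne_last.symm, if_pos rfl, res_val, if_pos hu, val_zero,
      if_neg (fun h => lt_irrefl _ h.1)]
  rw [e1, e2, sum_idx, sum_idx, hs, hs, h0, h1, h2, h3]
  have hB0 : B ≠ 0 := by linarith
  field_simp
  ring

theorem pay_odd {B : ℝ} {u : Fin m → Fin M} (hu : ¬ par u) :
    ∑ i, po m M B (vec B (u, false)) i = 2 := by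
  have e1 : vec B (u, false) = val u 2 := by simp [vec, ww]
  have hs : ∀ w : ℝ, ∑ i : Fin m, po m M B (val u w) (sig i) = 0 := by
    intro w
    refine Finset.sum_eq_zero fun i _ => ?_
    unfold po
    rw [if_neg (sig_ne_zero i), if_neg (sig_ne_last i)]
  have h0 : po m M B (val u 2) 0 = 2 := by
    unfold po
    rw [if_pos rfl, res_val, if_neg hu, val_zero, if_pos (le_refl _)]
  have h1 : po m M B (val u 2) (Fin.last (m + 1)) = 0 := by
    unfold po
    rw [if_neg zero_ne_last.symm, if_pos rfl, res_val, if_neg hu, val_zero,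
      if_neg (fun h => lt_irrefl _ h.1)]
  rw [e1, sum_idx, hs, h0, h1]
  ring

theorem le_OPT {B : ℝ} (hm : 0 < m) (hM : 0 < M) (hB : 2 < B) :
    2 + (1 - 1 / (M : ℝ)) / 2 * (1 - 2 / B) ≤ OPT (dist m M B hM hB) := by
  have hMr : (0 : ℝ) < M := by exact_mod_cast hM
  set N : ℝ := (M : ℝ) ^ m with hN
  have hNpos : 0 < N := by positivity
  have hB0 : 0 < B := by linarith
  have hmem : (∑ v ∈ (dist m M B hM hB).pts, (dist m M B hM hB).prob v * ∑ i, po m M B v i) ≤
      OPT (dist m M B hM hB) :=
    le_csSup (opt_bddAbove _) ⟨xo m M B, po m M B, xo_mech hB, rfl⟩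
  refine le_trans ?_ hmem
  rw [sum_dist hM hB (fun v => ∑ i, po m M B v i),
    sum_states B (fun a => ∑ i, po m M B (vec B a) i)]
  have h1 : ∑ u ∈ univ.filter (fun u : Fin m → Fin M => (par u ↔ True)),
      ((1 - 2 / B) * ∑ i, po m M B (vec B (u, false)) i +
        2 / B * ∑ i, po m M B (vec B (u, true)) i) =
      ((univ.filter (fun u : Fin m → Fin M => (par u ↔ True))).card : ℝ) * (3 - 2 / B) := by
    rw [Finset.sum_congr rfl (fun u hu => pay_even hB (u := u) (by
      simpa using (mem_filter.mp hu).2)), Finset.sum_const, nsmul_eq_mul]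
  have h2 : ∑ u ∈ univ.filter (fun u : Fin m → Fin M => ¬ (par u ↔ True)),
      ∑ i, po m M B (vec B (u, false)) i =
      ((univ.filter (fun u : Fin m → Fin M => ¬ (par u ↔ True))).card : ℝ) * 2 := by
    rw [Finset.sum_congr rfl (fun u hu => pay_odd (B := B) (u := u) (by
      simpa using (mem_filter.mp hu).2)), Finset.sum_const, nsmul_eq_mul]
  rw [h1, h2]
  have hcount : ((univ.filter (fun u : Fin m → Fin M => (par u ↔ True))).card : ℝ) +
      ((univ.filter (fun u : Fin m → Fin M => ¬ (par u ↔ True))).card : ℝ) = N := by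
    have := Finset.card_filter_add_card_filter_not (s := (univ : Finset (Fin m → Fin M)))
      (fun u => (par u ↔ True))
    rw [card_univ, Fintype.card_fun, Fintype.card_fin, Fintype.card_fin] at this
    rw [hN]
    exact_mod_cast this
  have hface : ((topFace (M := M) (⟨0, hm⟩ : Fin m)).card : ℝ) = N / M := by
    rw [eq_div_iff hMr.ne', hN]
    exact_mod_cast card_topFace (M := M) (⟨0, hm⟩ : Fin m) hM
  have h3 := shift (M := M) (⟨0, hm⟩ : Fin m) False (fun _ => 1) (fun _ => zero_le_one)
    (fun _ => le_refl _) (fun _ _ => le_refl _)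
  have h4 : (univ.filter (fun u : Fin m → Fin M => (par u ↔ False))) =
      univ.filter (fun u : Fin m → Fin M => ¬ (par u ↔ True)) := by
    ext u; simp
  have h5 : (univ.filter (fun u : Fin m → Fin M => ¬ (par u ↔ False))) =
      univ.filter (fun u : Fin m → Fin M => (par u ↔ True)) := by
    ext u; simp
  rw [h4, h5, hface, Finset.sum_const, Finset.sum_const, nsmul_eq_mul, nsmul_eq_mul, mul_one,
    mul_one] at h3
  set cE : ℝ := ((univ.filter (fun u : Fin m → Fin M => (par u ↔ True))).card : ℝ) with hcE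
  set cO : ℝ := ((univ.filter (fun u : Fin m → Fin M => ¬ (par u ↔ True))).card : ℝ) with hcO
  have h6 : N / 2 * (1 - 1 / M) ≤ cE := by
    have : N / 2 * (1 - 1 / (M : ℝ)) = (N - N / M) / 2 := by field_simp
    rw [this]; linarith
  have h7 : 0 ≤ 1 - 2 / B := by
    have : 2 / B < 1 := by rw [div_lt_one hB0]; exact hB
    linarith
  have h8 : N / 2 * (1 - 1 / M) * (1 - 2 / B) ≤ cE * (1 - 2 / B) :=
    mul_le_mul_of_nonneg_right h6 h7
  have h9 : cE * (3 - 2 / B) + cO * 2 = N * 2 + cE * (1 - 2 / B) := by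
    rw [← hcount]; ring
  rw [h9]
  calc 2 + (1 - 1 / (M : ℝ)) / 2 * (1 - 2 / B)
      = 1 / N * (N * 2 + N / 2 * (1 - 1 / M) * (1 - 2 / B)) := by
        field_simp
    _ ≤ 1 / N * (N * 2 + cE * (1 - 2 / B)) :=
        mul_le_mul_of_nonneg_left (by linarith) (by positivity)

end Construction

/-- `ρ_k ≤ 4/5` for every `k ≥ 2`. -/
theorem rho_le_four_fifths (k : ℕ) (hk : 2 ≤ k) : rho k ≤ 4 / 5 := by
  obtain ⟨m, rfl⟩ : ∃ m, k = m + 1 := ⟨k - 1, by omega⟩
  have hm : 0 < m := by omega
  -- the bound for each grid size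
  have key : ∀ M : ℕ, 3 ≤ M → rho (m + 1) ≤
      (2 + (6 + 2 * m) * (1 / (M : ℝ))) / (2 + (1 - 1 / (M : ℝ)) / 2 * (1 - 2 * (1 / (M : ℝ)))) := by
    intro M hM3
    have hM : 0 < M := by omega
    have hMr : (3 : ℝ) ≤ M := by exact_mod_cast hM3
    have hB : (2 : ℝ) < (M : ℝ) := by linarith
    have h1 := rev_le (m := m) (M := M) (B := (M : ℝ)) hM hB
    have h2 := le_OPT (m := m) (M := M) (B := (M : ℝ)) hm hM hB
    have h3 : (0 : ℝ) < 2 + (1 - 1 / (M : ℝ)) / 2 * (1 - 2 / (M : ℝ)) := by
      have h4 : 1 / (M : ℝ) ≤ 1 := by rw [div_le_one (by linarith)]; linarith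
      have h5 : 2 / (M : ℝ) ≤ 1 := by rw [div_le_one (by linarith)]; linarith
      have : 0 ≤ (1 - 1 / (M : ℝ)) / 2 * (1 - 2 / (M : ℝ)) :=
        mul_nonneg (by linarith) (by linarith)
      linarith
    have h4 := rho_le (m + 1) (dist m M (M : ℝ) hM hB) (noTies_dist hM hB) h3 h1 h2
    refine le_trans h4 (le_of_eq ?_)
    congr 1
    · ring
    · ring
  have hlim : Filter.Tendsto (fun M : ℕ => (2 + (6 + 2 * (m : ℝ)) * (1 / (M : ℝ))) /
      (2 + (1 - 1 / (M : ℝ)) / 2 * (1 - 2 * (1 / (M : ℝ))))) Filter.atTop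
      (nhds ((2 + (6 + 2 * (m : ℝ)) * 0) / (2 + (1 - 0) / 2 * (1 - 2 * 0)))) := by
    have h0 : Filter.Tendsto (fun M : ℕ => 1 / (M : ℝ)) Filter.atTop (nhds 0) :=
      tendsto_one_div_atTop_nhds_zero_nat
    refine Filter.Tendsto.div ?_ ?_ (by norm_num)
    · exact (h0.const_mul _).const_add _
    · exact (((h0.const_sub 1).div_const 2).mul ((h0.const_mul 2).const_sub 1)).const_add 2
  have h5 : ((2 + (6 + 2 * (m : ℝ)) * 0) / (2 + (1 - 0) / 2 * (1 - 2 * 0))) = 4 / 5 := by norm_num
  rw [h5] at hlim
  refine ge_of_tendsto hlim ?_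
  filter_upwards [Filter.eventually_ge_atTop 3] with M hM using key M hM

/-- **The approximation ratio `ρ_k` of the `k`-lookahead auction is at most `4/5` for every
`k ≥ 2`; in particular it does not tend to `1` as `k → ∞`.** -/
theorem result : (∀ k : ℕ, 2 ≤ k → rho k ≤ 4 / 5) ∧
    ¬ Filter.Tendsto rho Filter.atTop (nhds 1) := by
  refine ⟨rho_le_four_fifths, fun h => ?_⟩
  have h1 : (1 : ℝ) ≤ 4 / 5 := by
    refine le_of_tendsto h ?_
    filter_upwards [Filter.eventually_ge_atTop 2] with k hk using rho_le_four_fifths k hk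
  norm_num at h1

end Pool.Agent.Results.MP_0f9109_lc.LookaheadGap
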